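import Pool.Agent.K3h75.ND.StmK
import Pool.Agent.K3h91.ND.Cnt

/-!
# A positive proportion of the forms with coefficients in `O` is good (brick CNTO, for helper75)

Adapted from `Pool.Agent.K3h91.ND.Cnt`: the same sieve in the coordinates with respect to a basis
of `O`.
-/

set_option autoImplicit false
set_option linter.unusedSectionVars false

namespace Pool.Agent.K3h86.ND

open MvPolynomial Pool.Agent.K3h75.ND Pool.Agent.K3h91.ND

section coords

variable {O ι : Type} [CommRing O] [Fintype ι] (ω : Module.Basis ι ℤ O) {N d : ℕ}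

/-- the vector with the coordinates `A` -/
noncomputable def vecO (A : Mon (N + 1) d × ι → ℤ) (m : Mon (N + 1) d) : O :=
  ∑ i, A (m, i) • ω i

theorem repr_vecO (A : Mon (N + 1) d × ι → ℤ) (m : Mon (N + 1) d) (i : ι) :
    ω.repr (vecO ω A m) i = A (m, i) := by
  unfold vecO
  exact ω.repr_sum_self (fun i => A (m, i)) ▸ rfl

theorem vecO_inj : Function.Injective (vecO ω : (Mon (N + 1) d × ι → ℤ) → _) := by
  intro A A' h
  funext ⟨m, i⟩
  rw [← repr_vecO ω A, ← repr_vecO ω A', h]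

theorem vecO_repr (a : Mon (N + 1) d → O) :
    vecO ω (fun mi : Mon (N + 1) d × ι => ω.repr (a mi.1) mi.2) = a := by
  funext m
  exact ω.sum_repr (a m)

open Classical in
/-- the coordinates of the coefficients `b` -/
noncomputable def parB (A : Mon (N + 1) d × ι → ℤ) (mi : Idx N d × ι) : ℤ :=
  A (mi.1.1, mi.2) - (if IsPow mi.1.1 then A (fst0 N d, mi.2) else 0)

/-- the map to the parameters -/
noncomputable def parO (i₀ : ι) (A : Mon (N + 1) d × ι → ℤ) :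
    ((Idx N d × ι) ⊕ {i : ι // i ≠ i₀} → ℤ) × ℤ :=
  (Sum.elim (parB A) (fun i => A (fst0 N d, i.1)), A (fst0 N d, i₀))

theorem parO_inj (i₀ : ι) :
    Function.Injective (parO i₀ : (Mon (N + 1) d × ι → ℤ) → _) := by
  classical
  intro A A' h
  have h0 : ∀ i, A (fst0 N d, i) = A' (fst0 N d, i) := by
    intro i
    by_cases hi : i = i₀
    · rw [hi]
      exact congrArg Prod.snd h
    · exact congrFun (congrArg Prod.fst h) (Sum.inr ⟨i, hi⟩)
  funext ⟨m, i⟩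
  by_cases hm : IsFirst m
  · have : m = fst0 N d := Subtype.ext hm
    rw [this]
    exact h0 i
  · have h1 : parB A (⟨m, hm⟩, i) = parB A' (⟨m, hm⟩, i) :=
      congrFun (congrArg Prod.fst h) (Sum.inl (⟨m, hm⟩, i))
    unfold parB at h1
    simp only at h1
    rw [h0 i] at h1
    exact sub_left_injective h1

theorem pcoef_vecO {k : Type} [CommRing k] (φ : O →+* k) (A : Mon (N + 1) d × ι → ℤ) :
    (fun m => φ (vecO ω A m)) = pcoef (fun m : Idx N d => φ (∑ i, parB A (m, i) • ω i))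
      (φ (∑ i, A (fst0 N d, i) • ω i)) := by
  classical
  funext m
  unfold pcoef
  by_cases h : IsFirst m
  · have hm : m = fst0 N d := Subtype.ext h
    have hp : IsPow m := ⟨0, h⟩
    rw [dif_pos h, if_pos hp, hm, zero_add]
    rfl
  · rw [dif_neg h]
    unfold vecO parB
    simp only
    by_cases hp : IsPow m
    · rw [if_pos hp, ← map_add, ← Finset.sum_add_distrib]
      congr 1
      apply Finset.sum_congr rfl
      intro i _
      rw [if_pos hp, ← add_smul, sub_add_cancel]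
    · rw [if_neg hp, add_zero]
      congr 1
      apply Finset.sum_congr rfl
      intro i _
      rw [if_neg hp, sub_zero]

end coords

theorem card_J {ι : Type} [Fintype ι] [DecidableEq ι] (i₀ : ι) (N d : ℕ) :
    Fintype.card ((Idx N d × ι) ⊕ {i : ι // i ≠ i₀}) + 1 =
      Fintype.card (Mon (N + 1) d) * Fintype.card ι := by
  have h1 := Fintype.card_congr (Equiv.optionSubtypeNe i₀)
  rw [Fintype.card_option] at h1
  rw [Fintype.card_sum, Fintype.card_prod, card_mon, add_mul, one_mul, ← h1]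
  ring

theorem t_CNTO : S_EK → S_E1 → S_E2 → S_SMP → S_NRM1 → S_NRM2 → S_CNTO := by
  classical
  intro EK E1 E2 SMP NRM1 NRM2 O ι _ _ _ _ ω N d hN hd
  obtain ⟨i₀⟩ : Nonempty ι := ω.index_nonempty
  obtain ⟨g, hg, hE1⟩ := E1 N d hd
  obtain ⟨Δ, hΔ, hE2⟩ := E2 N d hd
  obtain ⟨Δ', hΔ', hN1⟩ := NRM1 O ι (Idx N d) ω Δ hΔ
  obtain ⟨δ, g', hδ, hg', hN2⟩ := NRM2 O ι (Idx N d) ω i₀ g hg d (by omega)
  have hΔ'' : (rename Sum.inl Δ' : MvPolynomial ((Idx N d × ι) ⊕ {i : ι // i ≠ i₀}) ℤ) ≠ 0 := by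
    intro h
    apply hΔ'
    apply rename_injective (R := ℤ) (Sum.inl : Idx N d × ι → (Idx N d × ι) ⊕ {i : ι // i ≠ i₀})
      Sum.inl_injective
    rw [h, map_zero]
  obtain ⟨C₁, hC₁, P₀, hEK⟩ := EK ((Idx N d × ι) ⊕ {i : ι // i ≠ i₀}) g' hg' δ hδ _ hΔ''
  -- the primes
  set P : ℕ := P₀ + ⌈2 * C₁⌉₊ + 1 with hP
  have hPC : 2 * C₁ ≤ P := by
    have h1 : 2 * C₁ ≤ (⌈2 * C₁⌉₊ : ℝ) := Nat.le_ceil _
    have h2 : ((⌈2 * C₁⌉₊ : ℕ) : ℝ) ≤ (P : ℝ) := by
      rw [hP]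
      push_cast
      have : (0 : ℝ) ≤ (P₀ : ℝ) := Nat.cast_nonneg _
      linarith
    linarith
  have hP1 : (0 : ℝ) < P := by
    rw [hP]
    positivity
  let S : Finset ℕ := (Finset.range (P + 1)).filter Nat.Prime
  have hS : ∀ p ∈ S, p.Prime := fun p hp => (Finset.mem_filter.1 hp).2
  let Q : ℕ := ∏ p ∈ S, p
  have hQ1 : 1 ≤ Q :=
    Nat.one_le_iff_ne_zero.2 (Finset.prod_ne_zero_iff.2 fun p hp => (hS p hp).ne_zero)
  have hQ : ∀ p : ℕ, p.Prime → P < p → ¬ p ∣ Q := by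
    intro p hp hPp hdvd
    obtain ⟨q, hq, hpq⟩ := (hp.prime.dvd_finsetProd_iff _).1 hdvd
    have h1 := (Nat.prime_dvd_prime_iff_eq hp (hS q hq)).1 hpq
    have h2 : q < P + 1 := Finset.mem_range.1 (Finset.mem_filter.1 hq).1
    omega
  have hQd : ∀ p ∈ S, (p : ℤ) ∣ (Q : ℤ) := by
    intro p hp
    exact_mod_cast Finset.dvd_prod_of_mem (fun p : ℕ => p) hp
  -- the smooth forms
  have hsm : ∀ p : ℕ, ∃ a : Mon (N + 1) d → ℤ, p.Prime → ∀ (k : Type) [Field k] [CharP k p]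
      (x : Fin (N + 1) → k), eval x (form fun m => (a m : k)) = 0 →
      (∀ i, eval x (pderiv i (form fun m => (a m : k))) = 0) → x = 0 := by
    intro p
    by_cases hp : p.Prime
    · obtain ⟨a, ha⟩ := SMP N d hN hd p hp
      exact ⟨a, fun _ => ha⟩
    · exact ⟨0, fun h => absurd h hp⟩
  choose sm hsm using hsm
  have ha₀ : ∀ mi : Mon (N + 1) d × ι, ∃ a : ℤ, ∀ p ∈ S,
      (p : ℤ) ∣ a - ω.repr ((sm p mi.1 : ℤ) : O) mi.2 := fun mi =>
    crt (fun p => ω.repr ((sm p mi.1 : ℤ) : O) mi.2) S hS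
  choose a₀ ha₀ using ha₀
  obtain ⟨H₀, hH₀⟩ := hEK P (by omega) Q hQ1 hQ (parO i₀ a₀).1 (parO i₀ a₀).2
  -- the exceptional set
  let Z : ℕ → Set (((Idx N d × ι) ⊕ {i : ι // i ≠ i₀} → ℤ) × ℤ) := fun H =>
      {z | (∀ i, |z.1 i| ≤ 2 * H ∧
      (Q : ℤ) ∣ z.1 i - (parO i₀ a₀).1 i) ∧ |z.2| ≤ H ∧
      (Q : ℤ) ∣ z.2 - (parO i₀ a₀).2 ∧ (ev g' z.1 (δ * z.2) = 0 ∨
        eval z.1 (rename Sum.inl Δ') = 0 ∨
        ∃ p : ℕ, p.Prime ∧ P < p ∧ (p : ℤ) ∣ ev g' z.1 (δ * z.2) ∧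
          (p : ℤ) ∣ eval z.1 (rename Sum.inl Δ'))}
  have hZfin : ∀ H, (Z H).Finite := by
    intro H
    have h1 : ((Set.pi Set.univ (fun _ : (Idx N d × ι) ⊕ {i : ι // i ≠ i₀} =>
        Set.Icc (-(2 * H : ℤ)) (2 * H))) ×ˢ (Set.Icc (-(H : ℤ)) H)).Finite :=
      (Set.Finite.pi (fun _ => Set.finite_Icc _ _)).prod (Set.finite_Icc _ _)
    refine h1.subset ?_
    rintro ⟨b, c⟩ ⟨h2, h3, -, -⟩
    refine ⟨fun i _ => abs_le.1 (h2 i).1, abs_le.1 h3⟩
  -- the class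
  let T : ℕ → Finset (Mon (N + 1) d × ι → ℤ) := fun H => Fintype.piFinset fun m =>
    (Finset.Icc (-(H : ℤ)) H).filter (fun x => (Q : ℤ) ∣ x - a₀ m)
  have hTmem : ∀ H a, a ∈ T H ↔ ∀ m, |a m| ≤ H ∧ (Q : ℤ) ∣ a m - a₀ m := by
    intro H a
    simp only [T, Fintype.mem_piFinset, Finset.mem_filter, Finset.mem_Icc, abs_le]
  have hTcard : ∀ H, Q ≤ H → ((H : ℝ) / Q) ^ (Fintype.card (Mon (N + 1) d) * Fintype.card ι) ≤
      ((T H).card : ℝ) := by
    intro H hH
    rw [Fintype.card_piFinset]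
    push_cast
    rw [← Fintype.card_prod, ← Finset.card_univ, ← Finset.prod_const]
    apply Finset.prod_le_prod
    · intro i _
      positivity
    · intro m _
      exact card_class H Q hQ1 hH (a₀ m)
  -- good vectors
  have hgood : ∀ H, ∀ A ∈ T H, parO i₀ A ∉ Z H → GoodVecO (vecO ω A) := by
    intro H A ha hZ
    rw [hTmem] at ha
    have hform : ∀ (k : Type) [Field k] (φ : O →+* k), (form fun m => φ (vecO ω A m)) =
        pform (fun m : Idx N d => φ (∑ i, parB A (m, i) • ω i))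
          (φ (∑ i, A (fst0 N d, i) • ω i)) := by
      intro k _ φ
      unfold pform
      rw [← pcoef_vecO]
    have hbox : (∀ i, |(parO i₀ A).1 i| ≤ 2 * H ∧ (Q : ℤ) ∣ (parO i₀ A).1 i - (parO i₀ a₀).1 i) ∧
        |(parO i₀ A).2| ≤ H ∧ (Q : ℤ) ∣ (parO i₀ A).2 - (parO i₀ a₀).2 := by
      refine ⟨?_, (ha _).1, (ha _).2⟩
      have h2 : (0 : ℤ) ≤ H := Int.natCast_nonneg _
      rintro (⟨m, i⟩ | i)
      · show |parB A (m, i)| ≤ 2 * H ∧ (Q : ℤ) ∣ parB A (m, i) - parB a₀ (m, i)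
        unfold parB
        simp only
        split_ifs with h
        · refine ⟨?_, ?_⟩
          · have h1 := abs_le.1 (ha (m.1, i)).1
            have h2 := abs_le.1 (ha (fst0 N d, i)).1
            rw [abs_le]
            constructor <;> linarith [h1.1, h1.2, h2.1, h2.2]
          · have h3 : A (m.1, i) - A (fst0 N d, i) - (a₀ (m.1, i) - a₀ (fst0 N d, i)) =
                (A (m.1, i) - a₀ (m.1, i)) - (A (fst0 N d, i) - a₀ (fst0 N d, i)) := by ring
            rw [h3]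
            exact dvd_sub (ha _).2 (ha _).2
        · refine ⟨?_, ?_⟩
          · have h1 := (ha (m.1, i)).1
            rw [sub_zero]
            linarith
          · simpa using (ha (m.1, i)).2
      · show |A (fst0 N d, i.1)| ≤ 2 * H ∧ (Q : ℤ) ∣ A (fst0 N d, i.1) - a₀ (fst0 N d, i.1)
        refine ⟨?_, (ha _).2⟩
        have h1 := (ha (fst0 N d, i.1)).1
        linarith
    have hren : eval (parO i₀ A).1 (rename Sum.inl Δ') = eval (parB A) Δ' := by
      rw [eval_rename]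
      rfl
    constructor
    · intro k _ _ φ x hx
      by_contra hne
      rw [hform k φ] at hx
      have h1 := hN2 k φ (parB A) (fun i => A (fst0 N d, i)) (hE1 k _ _ x hne hx)
      have h2 : ev g' (parO i₀ A).1 (δ * (parO i₀ A).2) = 0 := by exact_mod_cast h1
      exact hZ ⟨hbox.1, hbox.2.1, hbox.2.2, Or.inl h2⟩
    · intro p hp k _ _ φ x s hxs h0 hx hdet
      by_cases hpP : p ≤ P
      · have hpS : p ∈ S := Finset.mem_filter.2 ⟨Finset.mem_range.2 (by omega), hp⟩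
        have heq : (fun m => φ (vecO ω A m)) = fun m => (sm p m : k) := by
          funext m
          have h5 : ((sm p m : ℤ) : O) = ∑ i, ω.repr ((sm p m : ℤ) : O) i • ω i :=
            (ω.sum_repr _).symm
          have h6 : ((sm p m : ℤ) : k) = φ ((sm p m : ℤ) : O) := by rw [map_intCast]
          rw [h6, h5]
          unfold vecO
          rw [map_sum, map_sum]
          apply Finset.sum_congr rfl
          intro i _
          rw [zsmul_eq_mul, zsmul_eq_mul, map_mul, map_mul, map_intCast, map_intCast]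
          have h1 : (p : ℤ) ∣ A (m, i) - ω.repr ((sm p m : ℤ) : O) i := by
            have h2 : A (m, i) - ω.repr ((sm p m : ℤ) : O) i =
                (A (m, i) - a₀ (m, i)) + (a₀ (m, i) - ω.repr ((sm p m : ℤ) : O) i) := by ring
            rw [h2]
            exact dvd_add ((hQd p hpS).trans (ha (m, i)).2) (ha₀ (m, i) p hpS)
          have h3 : ((A (m, i) - ω.repr ((sm p m : ℤ) : O) i : ℤ) : k) = 0 :=
            (CharP.intCast_eq_zero_iff k p _).2 h1
          rw [Int.cast_sub] at h3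
          rw [sub_eq_zero.1 h3]
        rw [heq] at h0 hx
        have h4 := hsm p hp k x h0 hx
        rw [h4] at hxs
        simp at hxs
      · push Not at hpP
        have hne : x ≠ 0 := by
          intro h
          rw [h] at hxs
          simp at hxs
        rw [hform k φ] at hx hdet
        have h1 := hN2 k φ (parB A) (fun i => A (fst0 N d, i)) (hE1 k _ _ x hne hx)
        have h2 := hN1 k φ (parB A) (hE2 k _ _ x s hxs hx hdet)
        have h1' : (p : ℤ) ∣ ev g' (parO i₀ A).1 (δ * (parO i₀ A).2) :=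
          (CharP.intCast_eq_zero_iff k p _).1 h1
        have h2' : (p : ℤ) ∣ eval (parO i₀ A).1 (rename Sum.inl Δ') := by
          rw [hren]
          exact (CharP.intCast_eq_zero_iff k p _).1 h2
        exact hZ ⟨hbox.1, hbox.2.1, hbox.2.2, Or.inr (Or.inr ⟨p, hp, hpP, h1', h2'⟩)⟩
  -- conclusion
  have hQ0 : (0 : ℝ) < Q := by exact_mod_cast hQ1
  set M := Fintype.card (Mon (N + 1) d) * Fintype.card ι with hM
  refine ⟨1 / 2 * (1 / (3 * Q)) ^ M, by positivity, max H₀ Q, ?_⟩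
  intro H hH
  have hH1 : H₀ ≤ H := le_trans (le_max_left _ _) hH
  have hH2 : Q ≤ H := le_trans (le_max_right _ _) hH
  have hZc := hH₀ H hH1
  have hT := hTcard H hH2
  -- the good coordinate vectors
  have hfinA : {A : Mon (N + 1) d × ι → ℤ | (∀ m, |A m| ≤ H) ∧ GoodVecO (vecO ω A)}.Finite := by
    have h1 : (Set.pi Set.univ (fun _ : Mon (N + 1) d × ι => Set.Icc (-(H : ℤ)) H)).Finite :=
      Set.Finite.pi (fun _ => Set.finite_Icc _ _)
    refine h1.subset ?_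
    rintro a ⟨h2, -⟩ i _
    exact abs_le.1 (h2 i)
  have himg : vecO ω '' {A : Mon (N + 1) d × ι → ℤ | (∀ m, |A m| ≤ H) ∧ GoodVecO (vecO ω A)} =
      {a : Mon (N + 1) d → O | (∀ m i, |ω.repr (a m) i| ≤ H) ∧ GoodVecO a} := by
    ext a
    constructor
    · rintro ⟨A, ⟨h1, h2⟩, rfl⟩
      refine ⟨fun m i => ?_, h2⟩
      rw [repr_vecO]
      exact h1 (m, i)
    · rintro ⟨h1, h2⟩
      refine ⟨fun mi => ω.repr (a mi.1) mi.2, ⟨fun mi => h1 mi.1 mi.2, ?_⟩, vecO_repr ω a⟩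
      rw [vecO_repr]
      exact h2
  have hcardimg : {a : Mon (N + 1) d → O | (∀ m i, |ω.repr (a m) i| ≤ H) ∧ GoodVecO a}.ncard =
      {A : Mon (N + 1) d × ι → ℤ | (∀ m, |A m| ≤ H) ∧ GoodVecO (vecO ω A)}.ncard := by
    rw [← himg]
    exact Set.ncard_image_of_injective _ (vecO_inj ω)
  have hsub : (T H : Set (Mon (N + 1) d × ι → ℤ)) ⊆
      {A : Mon (N + 1) d × ι → ℤ | (∀ m, |A m| ≤ H) ∧ GoodVecO (vecO ω A)} ∪
        ((T H : Set (Mon (N + 1) d × ι → ℤ)) ∩ parO i₀ ⁻¹' (Z H)) := by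
    intro a ha
    by_cases hz : parO i₀ a ∈ Z H
    · exact Or.inr ⟨ha, hz⟩
    · exact Or.inl ⟨fun m => ((hTmem H a).1 ha m).1, hgood H a ha hz⟩
  have hfin2 : ((T H : Set (Mon (N + 1) d × ι → ℤ)) ∩ parO i₀ ⁻¹' (Z H)).Finite :=
    (Finset.finite_toSet _).subset Set.inter_subset_left
  have h1 : (T H).card ≤
      {A : Mon (N + 1) d × ι → ℤ | (∀ m, |A m| ≤ H) ∧ GoodVecO (vecO ω A)}.ncard +
      ((T H : Set (Mon (N + 1) d × ι → ℤ)) ∩ parO i₀ ⁻¹' (Z H)).ncard := by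
    rw [← Set.ncard_coe_finset]
    exact (Set.ncard_le_ncard hsub (hfinA.union hfin2)).trans (Set.ncard_union_le _ _)
  have h2 : ((T H : Set (Mon (N + 1) d × ι → ℤ)) ∩ parO i₀ ⁻¹' (Z H)).ncard ≤ (Z H).ncard :=
    Set.ncard_le_ncard_of_injOn (parO i₀) (fun a ha => ha.2)
      (fun a _ a' _ h => parO_inj i₀ h) (hZfin H)
  have h3 : ((T H).card : ℝ) ≤
      ({A : Mon (N + 1) d × ι → ℤ | (∀ m, |A m| ≤ H) ∧ GoodVecO (vecO ω A)}.ncard : ℝ) +
        ((Z H).ncard : ℝ) := by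
    exact_mod_cast h1.trans (Nat.add_le_add_left h2 _)
  rw [hcardimg]
  have h4 : ((Z H).ncard : ℝ) ≤ C₁ / P * ((H : ℝ) / Q) ^
      (Fintype.card ((Idx N d × ι) ⊕ {i : ι // i ≠ i₀}) + 1) := hZc
  rw [card_J, ← hM] at h4
  have h5 : C₁ / P ≤ 1 / 2 := by
    rw [div_le_iff₀ hP1]
    linarith
  have hHQ : (0 : ℝ) ≤ ((H : ℝ) / Q) ^ M := by positivity
  have h6 : C₁ / P * ((H : ℝ) / Q) ^ M ≤ 1 / 2 * ((H : ℝ) / Q) ^ M :=
    mul_le_mul_of_nonneg_right h5 hHQ
  have hH3 : (1 : ℝ) ≤ H := by exact_mod_cast hQ1.trans hH2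
  have h7 : (1 / (3 * Q) : ℝ) ^ M * (2 * (H : ℝ) + 1) ^ M ≤ ((H : ℝ) / Q) ^ M := by
    rw [← mul_pow]
    apply pow_le_pow_left₀ (by positivity)
    rw [div_mul_eq_mul_div, one_mul, div_le_div_iff₀ (by positivity) hQ0]
    nlinarith
  have h8 : 1 / 2 * (1 / (3 * (Q : ℝ))) ^ M * (2 * (H : ℝ) + 1) ^ M =
      1 / 2 * ((1 / (3 * Q) : ℝ) ^ M * (2 * (H : ℝ) + 1) ^ M) := by ring
  rw [h8]
  linarith

end Pool.Agent.K3h86.ND
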